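import Pool.Agent.Q274.BKL.Stm

/-!
# The Taylor coefficients of the function of Kronecker
-/

set_option autoImplicit false
set_option linter.unusedVariables false

open Filter
open scoped Topology PeriodPair

namespace Pool.Agent.Q111.BKL

open H667R3
open Pool.Agent.TH936.CW
open Pool.Agent.Q274.BKL

section general

variable (L : PeriodPair) (p q : ℂ)

lemma evz_an' (v : ℂ) {z : ℂ} (hz : z ∉ L.lattice) (P : PP) :
    AnalyticAt ℂ (fun z => evz L p q v z P) z := evz_an L p q v hz P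

lemma iter_evz (v : ℂ) (P : PP) (n : ℕ) : ∀ z, z ∉ L.lattice →
    iteratedDeriv n (fun z => evz L p q v z P) z = evz L p q v z ((Dv p L.g₂)^[n] P) := by
  induction n with
  | zero =>
    intro z _
    simp
  | succ n ih =>
    intro z hz
    rw [iteratedDeriv_succ]
    have h1 : iteratedDeriv n (fun z => evz L p q v z P) =ᶠ[𝓝 z]
        fun z => evz L p q v z ((Dv p L.g₂)^[n] P) := by
      filter_upwards [(isOpen_compl L).mem_nhds hz] with w hw
      exact ih w hw
    rw [h1.deriv_eq, (evz_deriv L p q hz v _).deriv, Function.iterate_succ_apply']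

lemma H_iter_an (v : ℂ) (l : ℕ) (z : ℂ) : AnalyticAt ℂ (iteratedDeriv l (Hh L p q v)) z := by
  rw [iteratedDeriv_eq_iterate]
  exact ((Hh_diff L p q v).analyticAt z).iterated_deriv l

lemma A_an (v : ℂ) {z : ℂ} (hz : z ∉ L.lattice) :
    AnalyticAt ℂ (fun t => (Hh L p q v t)⁻¹) z :=
  ((Hh_diff L p q v).analyticAt z).inv (Hh_ne L p q v hz)

/-- the derivatives of `H(z + w) / H(z)` with respect to `z` -/
noncomputable def Gn (n : ℕ) (v z w : ℂ) : ℂ := ∑ l ∈ Finset.range (n + 1),
  n.choose l * iteratedDeriv l (Hh L p q v) (z + w) *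
    iteratedDeriv (n - l) (fun t => (Hh L p q v t)⁻¹) z

lemma Gn_eq (n : ℕ) (v w : ℂ) {z : ℂ} (hz : z ∉ L.lattice) :
    iteratedDeriv n (fun t => Hh L p q v (t + w) * (Hh L p q v t)⁻¹) z = Gn L p q n v z w := by
  have h1 : AnalyticAt ℂ (fun t => Hh L p q v (t + w)) z := by
    have : Differentiable ℂ (fun t => Hh L p q v (t + w)) :=
      (Hh_diff L p q v).comp (differentiable_id.add_const w)
    exact this.analyticAt z
  have h2 := iteratedDeriv_fun_mul (n := n) (x := z) (f := fun t => Hh L p q v (t + w))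
    (g := fun t => (Hh L p q v t)⁻¹) h1.contDiffAt (A_an L p q v hz).contDiffAt
  rw [h2]
  unfold Gn
  refine Finset.sum_congr rfl fun l _ => ?_
  rw [iteratedDeriv_comp_add_const]

lemma Gn_an (n : ℕ) (v z w : ℂ) : AnalyticAt ℂ (fun w => Gn L p q n v z w) w := by
  unfold Gn
  refine Finset.analyticAt_fun_sum _ fun l _ => ?_
  refine (analyticAt_const.mul ?_).mul analyticAt_const
  exact (H_iter_an L p q v l (z + w)).fun_comp (by fun_prop)

lemma Gn_iter (n i : ℕ) (v : ℂ) {z : ℂ} (hz : z ∉ L.lattice) :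
    iteratedDeriv i (fun w => Gn L p q n v z w) 0 =
      evz L p q v z ((Dv p L.g₂)^[n] (Uu p L.g₂ i)) := by
  rw [← iter_evz L p q v _ n z hz]
  have h1 : (fun z => evz L p q v z (Uu p L.g₂ i)) =ᶠ[𝓝 z]
      fun t => iteratedDeriv i (Hh L p q v) t * (Hh L p q v t)⁻¹ := by
    filter_upwards [(isOpen_compl L).mem_nhds hz] with w hw
    rw [iter_H L p q v i w hw, mul_inv_cancel_right₀ (Hh_ne L p q v hw)]
  rw [h1.iteratedDeriv_eq]
  have h2 := iteratedDeriv_fun_mul (n := n) (x := z) (f := fun t => iteratedDeriv i (Hh L p q v) t)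
    (g := fun t => (Hh L p q v t)⁻¹) (H_iter_an L p q v i z).contDiffAt
    (A_an L p q v hz).contDiffAt
  rw [h2]
  unfold Gn
  rw [iteratedDeriv_fun_sum]
  · refine Finset.sum_congr rfl fun l _ => ?_
    have e1 : iteratedDeriv i (fun w => (n.choose l : ℂ) * iteratedDeriv l (Hh L p q v) (z + w) *
        iteratedDeriv (n - l) (fun t => (Hh L p q v t)⁻¹) z) 0 =
        (n.choose l : ℂ) * iteratedDeriv i (fun w => iteratedDeriv l (Hh L p q v) (z + w)) 0 *
        iteratedDeriv (n - l) (fun t => (Hh L p q v t)⁻¹) z := by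
      have e2 : (fun w => (n.choose l : ℂ) * iteratedDeriv l (Hh L p q v) (z + w) *
          iteratedDeriv (n - l) (fun t => (Hh L p q v t)⁻¹) z) = fun w =>
          ((n.choose l : ℂ) * iteratedDeriv (n - l) (fun t => (Hh L p q v t)⁻¹) z) *
          iteratedDeriv l (Hh L p q v) (z + w) := by
        funext w
        ring
      rw [e2, iteratedDeriv_const_mul_field]
      ring
    rw [e1]
    congr 2
    have e3 : (fun w => iteratedDeriv l (Hh L p q v) (z + w)) =
        fun w => iteratedDeriv l (Hh L p q v) (w + z) := by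
      funext w
      rw [add_comm]
    rw [e3, iteratedDeriv_comp_add_const]
    simp only [zero_add, iteratedDeriv_eq_iterate]
    rw [← Function.iterate_add_apply, ← Function.iterate_add_apply, add_comm]
  · intro l _
    refine AnalyticAt.contDiffAt ?_
    refine (analyticAt_const.mul ?_).mul analyticAt_const
    exact (H_iter_an L p q v l (z + 0)).fun_comp (by fun_prop)

lemma evz_sum (v z : ℂ) {ι : Type*} (s : Finset ι) (f : ι → PP) :
    evz L p q v z (∑ i ∈ s, f i) = ∑ i ∈ s, evz L p q v z (f i) := ev_sum _ _ _ _ _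

lemma evz_Cmul (v z a : ℂ) (P : PP) :
    evz L p q v z (MvPolynomial.C a * P) = a * evz L p q v z P := by
  unfold evz
  rw [ev_mul, ev_C]

lemma Dv_Cmul (g a : ℂ) (P : PP) (n : ℕ) :
    (Dv p g)^[n] (MvPolynomial.C a * P) = MvPolynomial.C a * (Dv p g)^[n] P := by
  induction n generalizing P with
  | zero => rfl
  | succ n ih =>
    rw [Function.iterate_succ_apply, Derivation.leibniz, Dv_C, smul_zero, add_zero, smul_eq_mul,
      ih, Function.iterate_succ_apply]

lemma Dv_sum (g : ℂ) {ι : Type*} (s : Finset ι) (f : ι → PP) (n : ℕ) :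
    (Dv p g)^[n] (∑ i ∈ s, f i) = ∑ i ∈ s, (Dv p g)^[n] (f i) := by
  induction n with
  | zero => rfl
  | succ n ih =>
    simp only [Function.iterate_succ_apply']
    rw [ih, map_sum]

/-- the numerator `w D_z^n K(z, w)` -/
noncomputable def Psn (n : ℕ) (v z w : ℂ) : ℂ := Gn L p q n v z w * Mm L p w

lemma Psn_iter (n m : ℕ) (v : ℂ) {z : ℂ} (hz : z ∉ L.lattice) :
    iteratedDeriv m (fun w => Psn L p q n v z w) 0 =
      evz L p q v z ((Dv p L.g₂)^[n] (Aa L p m)) := by
  have h1 := iteratedDeriv_fun_mul (n := m) (x := (0 : ℂ)) (f := fun w => Gn L p q n v z w)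
    (g := Mm L p) (Gn_an L p q n v z 0).contDiffAt (Mm_an L p).contDiffAt
  have h2 : iteratedDeriv m (fun w => Psn L p q n v z w) 0 =
      iteratedDeriv m (fun w => Gn L p q n v z w * Mm L p w) 0 := rfl
  rw [h2, h1]
  unfold Aa
  rw [Dv_sum, evz_sum]
  refine Finset.sum_congr rfl fun i _ => ?_
  rw [Dv_Cmul, evz_Cmul, Gn_iter L p q n i v hz]
  unfold rh
  ring

lemma Psn_an (n : ℕ) (v z : ℂ) : AnalyticAt ℂ (fun w => Psn L p q n v z w) 0 :=
  (Gn_an L p q n v z 0).mul (Mm_an L p)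

lemma Aa_zero : Aa L p 0 = 1 := by
  unfold Aa
  simp only [zero_add, Finset.range_one, Finset.sum_singleton]
  have : rh L p 0 = 1 := by
    unfold rh
    rw [iteratedDeriv_zero]
    unfold Mm
    rw [Tt_zero, inv_one]
  simp [this, Uu]

lemma Dv_one (g : ℂ) {n : ℕ} (hn : 1 ≤ n) : (Dv p g)^[n] (1 : PP) = 0 := by
  obtain ⟨k, rfl⟩ : ∃ k, n = k + 1 := ⟨n - 1, by omega⟩
  rw [Function.iterate_succ_apply, Derivation.map_one_eq_zero]
  clear hn
  induction k with
  | zero => rfl
  | succ k ih => rw [Function.iterate_succ_apply', ih, map_zero]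

lemma K_eq (n : ℕ) (v : ℂ) {z w : ℂ} (hz : z ∉ L.lattice) (hw : w ≠ 0) :
    iteratedDeriv n (fun t => Hh L p q v (t + w) / (Hh L p q v t * Hh L p q 0 w)) z =
      Psn L p q n v z w / w := by
  have e1 : (fun t => Hh L p q v (t + w) / (Hh L p q v t * Hh L p q 0 w)) = fun t =>
      (Hh L p q 0 w)⁻¹ * (Hh L p q v (t + w) * (Hh L p q v t)⁻¹) := by
    funext t
    rw [div_eq_mul_inv, mul_inv]
    ring
  rw [e1, iteratedDeriv_const_mul_field, Gn_eq L p q n v w hz]
  have e2 : (Hh L p q 0 w)⁻¹ = Mm L p w / w := by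
    unfold Hh Mm Tt
    rw [sigma_eq_mul, mul_inv, mul_inv, mul_inv]
    have : -(q * 0 * w) - p * w ^ 2 / 2 = -(p * w ^ 2 / 2) := by ring
    rw [this, div_eq_mul_inv]
    ring
  rw [e2]
  unfold Psn
  ring

lemma iter_dslope {f : ℂ → ℂ} (hf : AnalyticAt ℂ f 0) (h0 : f 0 = 0) (n : ℕ) :
    iteratedDeriv (n + 1) f 0 = (n + 1) * iteratedDeriv n (dslope f 0) 0 := by
  have h1 : f = fun w => w * dslope f 0 w := by
    funext w
    have := sub_smul_dslope f 0 w
    rw [sub_zero, smul_eq_mul, h0, sub_zero] at this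
    exact this.symm
  have h2 := iter_zmul (dsl hf) (n + 1)
  rw [← h1] at h2
  rw [h2]
  simp

end general

theorem t_COEF : S_COEF := by
  intro L q u z n hz hn
  obtain ⟨f, hf⟩ : ∃ f : ℂ → ℂ, f = fun w => Psn L (1 / 4) q n u z w := ⟨_, rfl⟩
  have hfa : AnalyticAt ℂ f 0 := by
    rw [hf]
    exact Psn_an L (1 / 4) q n u z
  have hf0 : f 0 = 0 := by
    have h1 := Psn_iter L (1 / 4) q n 0 u hz
    rw [iteratedDeriv_zero, Aa_zero, Dv_one _ _ hn] at h1
    rw [hf]
    simp only
    rw [h1]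
    simp [evz, ev]
  have hfn : iteratedDeriv (n + 1) f 0 = evz L (1 / 4) q u z ((Dv (1 / 4) L.g₂)^[n]
      (Aa L (1 / 4) (n + 1))) := by
    rw [hf]
    exact Psn_iter L (1 / 4) q n (n + 1) u hz
  have hda : AnalyticAt ℂ (dslope f 0) 0 := dsl hfa
  have h1 : ∀ w : ℂ, w ≠ 0 → iteratedDeriv n (fun w' => iteratedDeriv n
      (fun z' => Kw L q u z' w') z) w = iteratedDeriv n (dslope f 0) w := by
    intro w hw
    apply Filter.EventuallyEq.iteratedDeriv_eq
    filter_upwards [isOpen_ne.mem_nhds hw] with t ht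
    have ht' : t ≠ 0 := ht
    rw [dslope_of_ne _ ht', slope_def_field, hf0, sub_zero, sub_zero, hf]
    exact K_eq L (1 / 4) q n u hz ht'
  have h2 : Tendsto (iteratedDeriv n (dslope f 0)) (𝓝[≠] 0)
      (𝓝 (iteratedDeriv n (dslope f 0) 0)) := by
    have h3 : AnalyticAt ℂ (iteratedDeriv n (dslope f 0)) 0 := by
      rw [iteratedDeriv_eq_iterate]
      exact hda.iterated_deriv n
    exact h3.continuousAt.tendsto.mono_left nhdsWithin_le_nhds
  have h3 : iteratedDeriv n (dslope f 0) 0 =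
      n.factorial * evz L (1 / 4) q u z (Pp L (1 / 4) n) := by
    have h4 := iter_dslope hfa hf0 n
    rw [hfn] at h4
    have e1 : evz L (1 / 4) q u z (Pp L (1 / 4) n) = 1 / ((n + 1).factorial : ℂ) *
        evz L (1 / 4) q u z ((Dv (1 / 4) L.g₂)^[n] (Aa L (1 / 4) (n + 1))) := by
      unfold Pp
      rw [evz_Cmul]
    rw [e1, h4, Nat.factorial_succ]
    have hf' : (n.factorial : ℂ) ≠ 0 := by exact_mod_cast n.factorial_ne_zero
    have hn' : (n : ℂ) + 1 ≠ 0 := by exact_mod_cast n.succ_ne_zero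
    push_cast
    field_simp
  rw [← h3]
  refine h2.congr' ?_
  filter_upwards [self_mem_nhdsWithin] with w hw
  exact (h1 w hw).symm

end Pool.Agent.Q111.BKL
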