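import Pool.Agent.Q274.BKL.Stm

/-!
# Derivatives of the elliptic functions
-/

set_option autoImplicit false
set_option linter.unusedVariables false

open Filter
open scoped Topology PeriodPair

namespace Pool.Agent.Q111.BKL

open H667R3
open Pool.Agent.Q274.BKL
open Pool.Agent.Y698 (LD)

lemma xw_eq (L : PeriodPair) (z : ℂ) : Pool.Agent.Y698.Xx L z = xw L z := rfl

lemma yw_two (L : PeriodPair) (z : ℂ) : 2 * yw L z + xw L z = ℘'[L] z := by
  unfold yw
  ring

lemma curve {L : PeriodPair} {Ω : ℂ} (h : LD L Ω) {z : ℂ} (hz : z ∉ L.lattice) :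
    yw L z ^ 2 + xw L z * yw L z = xw L z ^ 3 - xw L z ^ 2 - 2 * xw L z - 1 := by
  have h1 := h.ode hz
  rw [xw_eq] at h1
  unfold yw
  linear_combination (1 / 4 : ℂ) * h1

theorem t_DER : S_DER := by
  intro L Ω q h z hz
  have hx : HasDerivAt (xw L) (2 * yw L z + xw L z) z := by
    rw [yw_two]
    exact (hasDerivAt_weierstrassP L hz).add_const _
  have hy : HasDerivAt (yw L) (3 * xw L z ^ 2 - 2 * xw L z - 2 - yw L z) z := by
    have h1 := ((Pool.Agent.TH936.CW.hasDerivAt_wp'_all L hz).sub hx).div_const 2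
    refine h1.congr_deriv ?_
    rw [h.g2]
    unfold xw yw
    unfold xw
    ring
  refine ⟨curve h hz, hx, hy, fun u => ?_⟩
  have hS : HasDerivAt (Sw L q u) (-xw L z) z := by
    have h1 := ((((hasDerivAt_zeta L hz).sub ((hasDerivAt_id z).const_mul (1 / 4))).sub_const
      (q * u)).add_const (1 / 2))
    refine h1.congr_deriv ?_
    unfold xw
    ring
  refine ⟨hS, ?_⟩
  have h1 := ((((hS.pow 2).sub hS).sub hx).add_const 1).div_const 2
  refine h1.congr_deriv ?_
  push_cast
  ring

end Pool.Agent.Q111.BKL
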