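import Pool.Agent.Q274.BKL.Stm

/-!
# Integrality of the coordinates of the points of odd order
-/

set_option autoImplicit false
set_option linter.unusedVariables false

open Filter
open scoped Topology PeriodPair

namespace Pool.Agent.Q111.BKL.F

open H667R3
open Pool.Agent.Q274.BKL
open Pool.Agent.Y698 (LD Tb al RR)
open Pool.Agent.TH936.CM Pool.Agent.TH936.PU

lemma Oz_two {L : PeriodPair} {z : ℂ} (h : Oz L z) : 2 * z ∉ L.lattice := by
  intro h2
  obtain ⟨N, ⟨k, hk⟩, hN⟩ := h.tor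
  apply h.ne
  have h3 : (k : ℂ) * (2 * z) ∈ L.lattice := by
    have := nsmul_mem h2 k
    rwa [nsmul_eq_mul] at this
  have h4 := sub_mem hN h3
  have e : (N : ℂ) * z - (k : ℂ) * (2 * z) = z := by
    rw [hk]
    push_cast
    ring
  rwa [e] at h4

lemma Oz_Tb {L : PeriodPair} {z : ℂ} {Γ : Type} [LinearOrderedCommGroupWithZero Γ]
    {v : Valuation ℂ Γ} (hv : v al < 1) (h : Oz L z) : Tb v L z := by
  obtain ⟨N, hN, hz⟩ := h.tor
  refine ⟨h.ne, (N : RR), ?_, ?_⟩
  · have := Pool.Agent.Y698.v_odd (v := v) (n := N) (Nat.odd_iff.1 hN)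
      (Pool.Agent.Y698.v_two_lt hv)
    push_cast
    exact this
  · push_cast
    exact hz

theorem t_F1 : S_F1 := by
  intro L Ω h Γ _ v hv z hz
  have h1 := (Oz_Tb hv hz).deriv h hv (Oz_two hz)
  have hx : v (xw L z) = 1 := h1.2
  refine ⟨hx, ?_⟩
  have hc : yw L z ^ 2 + xw L z * yw L z = xw L z ^ 3 - xw L z ^ 2 - 2 * xw L z - 1 := by
    have h1 := h.ode hz.ne
    have e : Pool.Agent.Y698.Xx L z = xw L z := rfl
    rw [e] at h1
    unfold yw
    linear_combination (1 / 4 : ℂ) * h1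
  have ht2 := Pool.Agent.Y698.v_two_lt hv
  have hr : v (xw L z ^ 3 - xw L z ^ 2 - 2 * xw L z - 1) ≤ 1 := by
    refine v_sub_le (v_sub_le (v_sub_le (v_pow_le hx.le 3) (v_pow_le hx.le 2))
      (v_mul_le ht2.le hx.le)) (by rw [map_one])
  by_contra hcon
  push Not at hcon
  have h2 : v (xw L z * yw L z) < v (yw L z ^ 2) := by
    rw [map_mul, map_pow, hx, one_mul]
    calc v (yw L z) = v (yw L z) * 1 := (mul_one _).symm
      _ < v (yw L z) * v (yw L z) :=
        mul_lt_mul_of_pos_left hcon (lt_of_lt_of_le zero_lt_one hcon.le)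
      _ = v (yw L z) ^ 2 := (pow_two _).symm
  have h3 := Valuation.map_add_eq_of_lt_left v h2
  rw [hc, map_pow] at h3
  rw [h3] at hr
  exact absurd hr (not_le.2 (one_lt_pow₀ hcon two_ne_zero))

end Pool.Agent.Q111.BKL.F
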