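import Pool.Agent.Q274.BKL.Stm

/-!
# The function of Kronecker at a point of odd order
-/

set_option autoImplicit false
set_option linter.unusedVariables false

open Filter
open scoped Topology PeriodPair

namespace Pool.Agent.Q111.BKL.K

open H667R3
open Pool.Agent.Q274.BKL
open Pool.Agent.Y698 (LD al)
open Pool.Agent.TH936.CW

/-- the order of a torsion point -/
lemma exists_order {L : PeriodPair} {z : ℂ} (h : Oz L z) :
    ∃ N : ℕ, Odd N ∧ 2 ≤ N ∧ (N : ℂ) * z ∈ L.lattice ∧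
      ∀ k : ℕ, 1 ≤ k → k < N → (k : ℂ) * z ∉ L.lattice := by
  classical
  obtain ⟨M, hM, hMz⟩ := h.tor
  have hex : ∃ n : ℕ, 1 ≤ n ∧ (n : ℂ) * z ∈ L.lattice := ⟨M, hM.pos, hMz⟩
  obtain ⟨hN1, hN2⟩ := Nat.find_spec hex
  have hmin : ∀ k : ℕ, 1 ≤ k → k < Nat.find hex → (k : ℂ) * z ∉ L.lattice := by
    intro k hk1 hk2 hk3
    exact Nat.find_min hex hk2 ⟨hk1, hk3⟩
  refine ⟨Nat.find hex, ?_, ?_, hN2, hmin⟩
  · have hdvd : Nat.find hex ∣ M := by
      rw [Nat.dvd_iff_mod_eq_zero]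
      by_contra hcon
      have h1 : M % Nat.find hex < Nat.find hex := Nat.mod_lt _ hN1
      refine hmin _ (Nat.one_le_iff_ne_zero.2 hcon) h1 ?_
      have h2 := Nat.mod_add_div M (Nat.find hex)
      have h3 := nsmul_mem hN2 (M / Nat.find hex)
      rw [nsmul_eq_mul] at h3
      have h4 := sub_mem hMz h3
      have e : (M : ℂ) * z - ((M / Nat.find hex : ℕ) : ℂ) * ((Nat.find hex : ℂ) * z) =
          ((M % Nat.find hex : ℕ) : ℂ) * z := by
        have h5 : (M : ℂ) = ((M % Nat.find hex : ℕ) : ℂ) +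
            (Nat.find hex : ℂ) * ((M / Nat.find hex : ℕ) : ℂ) := by
          exact_mod_cast h2.symm
        linear_combination z * h5
      rwa [e] at h4
    exact hM.of_dvd_nat hdvd
  · by_contra hcon
    have : Nat.find hex = 1 := by omega
    rw [this] at hN2
    apply h.ne
    simpa using hN2

lemma Kw_mer (L : PeriodPair) (q u z : ℂ) (hz : z ∉ L.lattice) :
    MeromorphicAt (fun w => Kw L q u z w) 0 := by
  unfold Kw
  have h1 : AnalyticAt ℂ (fun w => Hh L (1 / 4) q u (z + w)) 0 := by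
    have : Differentiable ℂ (fun w => Hh L (1 / 4) q u (z + w)) :=
      (Hh_diff L (1 / 4) q u).comp (differentiable_id.const_add z)
    exact this.analyticAt 0
  have h2 : AnalyticAt ℂ (fun w => Hh L (1 / 4) q u z * Hh L (1 / 4) q 0 w) 0 := by
    exact analyticAt_const.mul ((Hh_diff L (1 / 4) q 0).analyticAt 0)
  exact h1.meromorphicAt.div h2.meromorphicAt

lemma Kw_lim (L : PeriodPair) (q u z : ℂ) (hz : z ∉ L.lattice) :
    Tendsto (fun w => Kw L q u z w * w ^ (1 : ℤ)) (𝓝[≠] 0) (𝓝 1) := by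
  have h1 : Tendsto (fun w => Hh L (1 / 4) q u (z + w) * (Hh L (1 / 4) q u z)⁻¹ *
      Mm L (1 / 4) w) (𝓝[≠] 0) (𝓝 (Hh L (1 / 4) q u (z + 0) * (Hh L (1 / 4) q u z)⁻¹ *
      Mm L (1 / 4) 0)) := by
    have h2 : ContinuousAt (fun w => Hh L (1 / 4) q u (z + w) * (Hh L (1 / 4) q u z)⁻¹ *
        Mm L (1 / 4) w) 0 := by
      refine ContinuousAt.mul (ContinuousAt.mul ?_ continuousAt_const)
        (Mm_an L (1 / 4)).continuousAt
      have : Differentiable ℂ (fun w => Hh L (1 / 4) q u (z + w)) :=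
        (Hh_diff L (1 / 4) q u).comp (differentiable_id.const_add z)
      exact this.continuous.continuousAt
    exact h2.tendsto.mono_left nhdsWithin_le_nhds
  have h3 : Hh L (1 / 4) q u (z + 0) * (Hh L (1 / 4) q u z)⁻¹ * Mm L (1 / 4) 0 = 1 := by
    rw [add_zero, mul_inv_cancel₀ (Hh_ne L _ q u hz), one_mul]
    unfold Mm
    rw [Tt_zero, inv_one]
  rw [h3] at h1
  refine h1.congr' ?_
  filter_upwards [self_mem_nhdsWithin] with w hw
  have hw' : w ≠ 0 := hw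
  have e2 : (Hh L (1 / 4) q 0 w)⁻¹ = Mm L (1 / 4) w / w := by
    unfold Hh Mm Tt
    rw [sigma_eq_mul, mul_inv, mul_inv, mul_inv]
    have : -(q * 0 * w) - 1 / 4 * w ^ 2 / 2 = -(1 / 4 * w ^ 2 / 2) := by ring
    rw [this, div_eq_mul_inv]
    ring
  have e3 : Kw L q u z w = Hh L (1 / 4) q u (z + w) *
      ((Hh L (1 / 4) q u z)⁻¹ * (Hh L (1 / 4) q 0 w)⁻¹) := by
    unfold Kw
    rw [← mul_inv]
    exact div_eq_mul_inv _ _
  rw [e3, e2, zpow_one]
  field_simp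

lemma ev_notMem {L : PeriodPair} {a : ℂ} (ha : a ∉ L.lattice) :
    ∀ᶠ w in 𝓝[≠] (0 : ℂ), a + w ∉ L.lattice := by
  have h1 : Tendsto (fun w : ℂ => a + w) (𝓝[≠] 0) (𝓝 a) := by
    have : Tendsto (fun w : ℂ => a + w) (𝓝 0) (𝓝 (a + 0)) :=
      (by fun_prop : Continuous fun w : ℂ => a + w).tendsto 0
    rw [add_zero] at this
    exact this.mono_left nhdsWithin_le_nhds
  exact h1.eventually ((isOpen_compl L).mem_nhds ha)

lemma ev_notMem' {L : PeriodPair} {a : ℂ} (ha : a ∉ L.lattice) :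
    ∀ᶠ w in 𝓝[≠] (0 : ℂ), a - w ∉ L.lattice := by
  have h1 : Tendsto (fun w : ℂ => a - w) (𝓝[≠] 0) (𝓝 a) := by
    have : Tendsto (fun w : ℂ => a - w) (𝓝 0) (𝓝 (a - 0)) :=
      (by fun_prop : Continuous fun w : ℂ => a - w).tendsto 0
    rw [sub_zero] at this
    exact this.mono_left nhdsWithin_le_nhds
  exact h1.eventually ((isOpen_compl L).mem_nhds ha)

theorem t_IRK : S_IRK := by
  intro hADD hKP hIR1 hIR3 hXY hF1 hZB hBL hF2 hIR2 hIR5 hIRS L Ω q hD Γ _ v hv z hz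
  obtain ⟨N, hodd, hN2, hNz, hmin⟩ := exists_order hz
  obtain ⟨hU, hXY2⟩ := hXY hIR1 hIR2 hIR3 L Ω hD.ld
  obtain ⟨hx, hy, -⟩ := hXY2 Γ v
  obtain ⟨-, -, hlw⟩ := hIRS hZB hBL hIR1 hIR2 hIR3 hIR5 hXY L Ω q hD Γ v hv
  obtain ⟨hK1, hK2, hK3⟩ := hKP hADD L Ω q hD
  obtain ⟨i1, i2, i3, i4, i5⟩ := hIR1 Γ v (Tw L) hU
  have hOz : ∀ k : ℕ, 1 ≤ k → k < N → Oz L ((k : ℂ) * z) := by
    intro k hk1 hk2
    refine ⟨hmin k hk1 hk2, N, hodd, ?_⟩
    have := nsmul_mem hNz k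
    rw [nsmul_eq_mul] at this
    have e : (N : ℂ) * (k * z) = k * (N * z) := by ring
    rwa [e]
  have hS : ∀ k : ℕ, 1 ≤ k → k < N →
      v (Sw L q ((k : ℂ) * (starRingEnd ℂ) z) ((k : ℂ) * z)) ≤ 1 := by
    intro k hk1 hk2
    have := (hF2 hZB hBL hF1 L Ω q hD Γ v hv _ (hOz k hk1 hk2)).1
    rwa [map_mul, Complex.conj_natCast] at this
  have key : ∀ k : ℕ, 1 ≤ k → k < N → ∃ g : ℂ → ℂ, IR v (Tw L) g ∧
      ∀ᶠ w in 𝓝[≠] (0 : ℂ), Kw L q ((starRingEnd ℂ) z) z w ^ k =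
        g w * Kw L q ((k : ℂ) * (starRingEnd ℂ) z) ((k : ℂ) * z) w := by
    intro k hk1
    induction k, hk1 using Nat.le_induction with
    | base =>
      intro _
      refine ⟨fun _ => 1, i1 1 (by rw [map_one]), ?_⟩
      filter_upwards with w
      simp
    | succ k hk1 ih =>
      intro hk2
      obtain ⟨g, hg, hgw⟩ := ih (by omega)
      have hOk := hOz (k + 1) (by omega) hk2
      obtain ⟨c, hc⟩ : ∃ c : ℂ, c = Sw L q ((starRingEnd ℂ) z) z +
        Sw L q ((k : ℂ) * (starRingEnd ℂ) z) ((k : ℂ) * z) -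
        Sw L q (((k + 1 : ℕ) : ℂ) * (starRingEnd ℂ) z) (((k + 1 : ℕ) : ℂ) * z) - 1 := ⟨_, rfl⟩
      have hvc : v c ≤ 1 := by
        have h1 := hS 1 le_rfl (by omega)
        rw [Nat.cast_one, one_mul, one_mul] at h1
        have h2 := hS k hk1 (by omega)
        have h3 := hS (k + 1) (by omega) hk2
        rw [hc]
        refine (v.map_sub _ _).trans (max_le ?_ (by rw [map_one]))
        refine (v.map_sub _ _).trans (max_le ?_ h3)
        exact (v.map_add _ _).trans (max_le h1 h2)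
      have hl := hlw (((k + 1 : ℕ) : ℂ) * z) hOk.ne
        (hF1 L Ω hD.ld Γ v hv _ hOk).1.le (hF1 L Ω hD.ld Γ v hv _ hOk).2
      have hl2 : IR v (Tw L) (fun w => c + (-1) * lw L (((k + 1 : ℕ) : ℂ) * z) w) :=
        i3 _ _ (i1 c hvc) (i4 _ _ (i1 (-1) (by rw [Valuation.map_neg, map_one])) hl)
      refine ⟨fun w => g w * (c + (-1) * lw L (((k + 1 : ℕ) : ℂ) * z) w), i4 _ _ hg hl2, ?_⟩
      have hkz := hmin k hk1 (by omega)
      have hk1z := hmin (k + 1) (by omega) hk2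
      have e1 : z + (k : ℂ) * z = ((k + 1 : ℕ) : ℂ) * z := by
        push_cast
        ring
      have e2 : (starRingEnd ℂ) z + (k : ℂ) * (starRingEnd ℂ) z =
          ((k + 1 : ℕ) : ℂ) * (starRingEnd ℂ) z := by
        push_cast
        ring
      filter_upwards [hgw, near L, ev_notMem hz.ne, ev_notMem hkz, ev_notMem hk1z,
        ev_notMem' hk1z] with w h1 h2 h3 h4 h5 h6
      have h7 := hK1 ((starRingEnd ℂ) z) ((k : ℂ) * (starRingEnd ℂ) z) z ((k : ℂ) * z) w hz.ne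
        hkz h2 (by rw [e1]; exact hk1z) h3 h4 (by rw [e1]; exact h5) (by rw [e1]; exact h6)
      rw [e1, e2] at h7
      rw [pow_succ, h1]
      have h8 : g w * Kw L q ((k : ℂ) * (starRingEnd ℂ) z) ((k : ℂ) * z) w *
          Kw L q ((starRingEnd ℂ) z) z w = g w * (Kw L q ((starRingEnd ℂ) z) z w *
          Kw L q ((k : ℂ) * (starRingEnd ℂ) z) ((k : ℂ) * z) w) := by ring
      rw [h8, h7, hc]
      ring
  obtain ⟨g, hg, hgw⟩ := key (N - 1) (by omega) (by omega)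
  have hfin : IR v (Tw L) (fun w => Kw L q ((starRingEnd ℂ) z) z w ^ N) := by
    have hvx := (hF1 L Ω hD.ld Γ v hv _ hz).1
    have h1 : IR v (Tw L) (fun w => xw L w + (-xw L z)) :=
      i3 _ _ hx (i1 _ (by rw [Valuation.map_neg]; exact hvx.le))
    have h2 := i4 _ _ hg h1
    refine i5 _ _ ?_ h2
    filter_upwards [hgw, near L] with w h3 h4
    obtain ⟨M, hM⟩ : ∃ M, N = M + 1 := ⟨N - 1, by omega⟩
    subst hM
    rw [Nat.add_sub_cancel] at h3
    have e1 : ((M : ℕ) : ℂ) * z = -z + ((M + 1 : ℕ) : ℂ) * z := by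
      push_cast
      ring
    have e2 : ((M : ℕ) : ℂ) * (starRingEnd ℂ) z = -(starRingEnd ℂ) z +
        (starRingEnd ℂ) (((M + 1 : ℕ) : ℂ) * z) := by
      rw [map_mul, Complex.conj_natCast]
      push_cast
      ring
    rw [pow_succ, h3, e1, e2]
    have hnz : -z ∉ L.lattice := fun h => hz.ne (by simpa using neg_mem h)
    rw [hK3 _ (-z) w _ hnz h4 hNz]
    have h5 := hK2 ((starRingEnd ℂ) z) z w hz.ne h4
    linear_combination (-g w) * h5
  refine (hIR3 hIR1 hIR2 Γ v (Tw L) _ hU).2 1 N (Kw_mer L q _ z hz.ne) (Kw_lim L q _ z hz.ne)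
    hodd.pos ?_ hfin
  exact Pool.Agent.Y698.v_odd (Nat.odd_iff.1 hodd) (Pool.Agent.Y698.v_two_lt hv)

end Pool.Agent.Q111.BKL.K
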