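import Pool.Agent.Q274.BKL.Stm2
import Pool.Agent.Q111.BKL.F1

/-!
# Comparison of the weighted sums with weight zero
-/

set_option autoImplicit false
set_option linter.unusedVariables false
set_option linter.unusedSectionVars false

open Filter
open scoped Topology PeriodPair

namespace Pool.Agent.Q111.BKL.J

open H667R3
open Pool.Agent.Q274.BKL
open Pool.Agent.TH936.CM Pool.Agent.TH936.PU
open Pool.Agent.W192.HK (sp nm)
open Pool.Agent.TH936.CW (ek ek_per)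
open Pool.Agent.Y698 (LD al bl RR aR bR fR e7 e7_per e7_neg e7_eq_zero nR nR_mul nR_fR mul_cj cj cX cY
  aR_coe bR_coe v_two_lt fin_quot nR_nonneg)
open Pool.Agent.Y698.SG (Pe Fam hc hc_per hc_neg hcprod Go)

/-- points of odd order in a form suitable for multiplication -/
lemma Oz_of {L : PeriodPair} {Ω : ℂ} (hL : IsLat L RR Ω) {z : ℂ} {g : RR} (hg : Odd (nR g))
    (h0 : z ∉ L.lattice) (hz : (g : ℂ) * z ∈ L.lattice) : Oz L z := by
  refine ⟨h0, (nR g).natAbs, ?_, ?_⟩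
  · rwa [Int.natAbs_odd]
  · have h1 := hL.mul (cj g) _ hz
    have h2 := congrArg (fun r : RR => (r : ℂ)) (mul_cj g)
    push_cast at h2
    have h3 : (((nR g).natAbs : ℕ) : ℂ) = ((nR g : ℤ) : ℂ) := by
      rw [← Int.cast_natCast, Int.natAbs_of_nonneg (nR_nonneg g)]
    have e : (((nR g).natAbs : ℕ) : ℂ) * z = (cj g : ℂ) * (g * z) := by
      rw [h3]
      linear_combination (-z) * h2
    rwa [e]

lemma odd_Go {n : RR} (h : Go n) : Odd (nR n) := by
  obtain ⟨u, hu⟩ := h.m4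
  have h1 : cX n = 1 + 4 * cX u ∧ cY n = 4 * cY u := by
    have h4 := Pool.Agent.Y698.cXY_mul 4 u
    have h5 := Pool.Agent.Y698.cXY_nat 4
    have h6 := Pool.Agent.Y698.cXY_add 1 (4 * u)
    have h7 := Pool.Agent.Y698.cXY_one
    have e : ((4 : ℕ) : RR) = 4 := by norm_cast
    rw [e] at h5
    rw [hu, h6.1, h6.2, h4.1, h4.2, h5.1, h5.2, h7.1, h7.2]
    constructor
    · push_cast; ring
    · push_cast; ring
  unfold nR
  rw [h1.1, h1.2, Int.odd_iff]
  ring_nf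
  omega

/-- multiplication by elements of norm a power of two -/
lemma mul_notMem {L : PeriodPair} {Ω : ℂ} (hL : IsLat L RR Ω) {w : ℂ} (hw : Oz L w) (r : RR) {k : ℕ}
    (hr : ∃ s : RR, s * r = 2 ^ k) : (r : ℂ) * w ∉ L.lattice := by
  intro h
  obtain ⟨s, hs⟩ := hr
  have h1 := hL.mul s _ h
  have h2 := congrArg (fun r : RR => (r : ℂ)) hs
  push_cast at h2
  rw [Pool.Agent.Y698.two_coe] at h2
  have e : (s : ℂ) * (r * w) = ((2 ^ k : ℕ) : ℂ) * w := by
    push_cast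
    linear_combination w * h2
  rw [e] at h1
  obtain ⟨N, hN, hNw⟩ := hw.tor
  have hcop : Nat.Coprime (2 ^ k) N := Nat.Coprime.pow_left k (Nat.coprime_two_left.2 hN)
  obtain ⟨a, b, hab⟩ : ∃ a b : ℤ, a * (2 ^ k : ℕ) + b * N = 1 :=
    (Int.isCoprime_iff_gcd_eq_one.2 (by exact_mod_cast hcop))
  apply hw.ne
  have h3 := zsmul_mem h1 a
  have h4 := zsmul_mem hNw b
  have h5 := add_mem h3 h4
  rw [zsmul_eq_mul, zsmul_eq_mul] at h5
  have h6 : ((a * (2 ^ k : ℕ) + b * N : ℤ) : ℂ) = 1 := by rw [hab]; norm_num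
  have e2 : (a : ℂ) * (((2 ^ k : ℕ) : ℂ) * w) + (b : ℂ) * ((N : ℂ) * w) = w := by
    push_cast at h6 ⊢
    linear_combination w * h6
  rwa [e2] at h5

lemma Mk_per {L : PeriodPair} {Ω q : ℂ} (hD : Dat L Ω q) (n : ℕ) {z w : ℂ}
    (hz : z ∉ L.lattice) (h : w - z ∈ L.lattice) : Mk L q n w = Mk L q n z := by
  unfold Mk
  rw [ek_per hD.per n hz h]

lemma Mk_neg (hP : S_PAR) (L : PeriodPair) (q : ℂ) (n : ℕ) {z : ℂ} (hz : z ∉ L.lattice) :
    Mk L q n (-z) = -Mk L q n z := by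
  unfold Mk
  rw [hP L _ q n z hz]
  ring

/-- the four points -/
lemma four {L : PeriodPair} {Ω : ℂ} (hL : IsLat L RR Ω) {w : ℂ} (hw : Oz L w) :
    bl * w ∉ L.lattice ∧ 2 * w ∉ L.lattice ∧ al * w ∉ L.lattice := by
  refine ⟨?_, ?_, ?_⟩
  · have := mul_notMem hL hw bR (k := 1) ⟨aR, by rw [Pool.Agent.Y698.aR_mul_bR, pow_one]⟩
    rwa [bR_coe] at this
  · have := mul_notMem hL hw 2 (k := 1) ⟨1, by rw [one_mul, pow_one]⟩
    rwa [Pool.Agent.Y698.two_coe] at this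
  · have := mul_notMem hL hw aR (k := 1) ⟨bR, by rw [mul_comm, Pool.Agent.Y698.aR_mul_bR, pow_one]⟩
    rwa [aR_coe] at this

lemma N1_per {L : PeriodPair} {Ω q : ℂ} (hD : Dat L Ω q) {z w : ℂ}
    (hz : Oz L z) (h : w - z ∈ L.lattice) : N1 L q w = N1 L q z := by
  have hL := hD.ld.lat
  obtain ⟨h1, h2, h3⟩ := four hL hz
  have e1 : bl * w - bl * z ∈ L.lattice := by
    have := hL.mul bR _ h
    rw [bR_coe] at this
    rwa [← mul_sub]
  have e2 : 2 * w - 2 * z ∈ L.lattice := by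
    have := hL.mul 2 _ h
    rw [Pool.Agent.Y698.two_coe] at this
    rwa [← mul_sub]
  have e3 : al * w - al * z ∈ L.lattice := by
    have := hL.mul aR _ h
    rw [aR_coe] at this
    rwa [← mul_sub]
  unfold N1
  rw [Mk_per hD 0 h1 e1, Mk_per hD 0 h2 e2, Mk_per hD 0 hz.ne h, Mk_per hD 0 h3 e3]

lemma N1_neg (hP : S_PAR) {L : PeriodPair} {Ω q : ℂ} (hL : IsLat L RR Ω) {z : ℂ} (hz : Oz L z) :
    N1 L q (-z) = -N1 L q z := by
  obtain ⟨h1, h2, h3⟩ := four hL hz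
  unfold N1
  rw [mul_neg, mul_neg, mul_neg, Mk_neg hP L q 0 h1, Mk_neg hP L q 0 h2, Mk_neg hP L q 0 hz.ne,
    Mk_neg hP L q 0 h3]
  ring

/-- the points of the sum -/
lemma pt {L : PeriodPair} {Ω : ℂ} (hL : IsLat L RR Ω) {n : RR} (hn : Go n) {x y : RR}
    (hy : y ∉ sp fR) : Oz L (Ω * y / fR + Ω * x / n) ∧
      ((fR * n : RR) : ℂ) * (Ω * y / fR + Ω * x / n) ∈ L.lattice := by
  have hf0 : (fR : ℂ) ≠ 0 := by
    intro h
    exact Pool.Agent.Y698.fR_ne (Subtype.ext (by rw [h]; rfl))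
  have hn0 : (n : ℂ) ≠ 0 := by
    intro h
    exact hn.gd.ne (Subtype.ext (by rw [h]; rfl))
  have e1 : ((fR * n : RR) : ℂ) * (Ω * y / fR + Ω * x / n) = Ω * ((n * y + fR * x : RR) : ℂ) := by
    push_cast
    field_simp
  have h1 : ((fR * n : RR) : ℂ) * (Ω * y / fR + Ω * x / n) ∈ L.lattice := by
    rw [e1]
    exact hL.mem_mul _
  refine ⟨Oz_of hL (g := fR * n) ?_ ?_ h1, h1⟩
  · rw [nR_mul, nR_fR]
    exact Odd.mul (by decide) (odd_Go hn)
  · intro h2
    apply hy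
    obtain ⟨r, hr⟩ := (hL.mem _).1 h2
    have h3 : (Ω : ℂ) * ((n * y + fR * x : RR) : ℂ) = Ω * ((fR * (n * r) : RR) : ℂ) := by
      rw [← e1, hr]
      push_cast
      ring
    have h4 := mul_left_cancel₀ hL.ne h3
    have h5 : n * y + fR * x = fR * (n * r) := Subtype.ext h4
    have h6 : fR ∣ n * y := ⟨n * r - x, by linear_combination h5⟩
    rw [Ideal.mem_span_singleton]
    exact hn.gd.cop.dvd_of_dvd_mul_left h6

theorem t_JD : S_JD := by
  classical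
  intro hCK hPAR L Ω q hD Γ _ v hv _ ι _ S π hF m hm k hk hk2
  have hL := hD.ld.lat
  have hgo : Go (∏ i ∈ S, π i) := Go.prod fun i hi => (hF.pd i hi).go
  have hφp : Pe (∏ i ∈ S, π i) (fun x => ∏ i ∈ S, hc (π i) x) := Pe.prod fun i _ => hc_per (π i)
  have hφe : ∀ x : RR, ∏ i ∈ S, hc (π i) (-x) = ∏ i ∈ S, hc (π i) x :=
    fun x => Finset.prod_congr rfl fun i hi => hc_neg (hF.pd i hi) x
  have hφ1 : ∀ x : RR, v (∏ i ∈ S, hc (π i) x) ≤ 1 := fun x => (hcprod S π x).1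
  obtain ⟨n, hn⟩ : ∃ n : RR, n = ∏ i ∈ S, π i := ⟨_, rfl⟩
  obtain ⟨φ, hφ⟩ : ∃ φ : RR → ℂ, φ = fun x => ∏ i ∈ S, hc (π i) x := ⟨_, rfl⟩
  rw [← hn] at hgo hφp hm ⊢
  rw [← hφ] at hφp ⊢
  have hφe' : ∀ x, φ (-x) = φ x := by rw [hφ]; exact hφe
  have hφ1' : ∀ x, v (φ x) ≤ 1 := by rw [hφ]; exact hφ1
  have f1 := fin_quot hgo.gd.ne
  let _ : Fintype (RR ⧸ sp n) := Fintype.ofFinite _
  obtain ⟨D, hDd⟩ : ∃ D : ℂ → ℂ, D = fun z => Mk L q k z - N1 L q (m * z) := ⟨_, rfl⟩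
  obtain ⟨z, hz⟩ : ∃ z : (RR ⧸ sp n) × (RR ⧸ sp fR) → ℂ,
    z = fun p => Ω * p.2.out / fR + Ω * p.1.out / n := ⟨_, rfl⟩
  have e1 : Bw Ω (Mk L q k) n φ - Bw Ω (fun z => N1 L q (m * z)) n φ =
      ∑ p : (RR ⧸ sp n) × (RR ⧸ sp fR), φ p.1.out * (e7 p.2.out * D (z p)) := by
    unfold Bw Gw
    rw [finsum_eq_sum_of_fintype, finsum_eq_sum_of_fintype, ← Finset.sum_sub_distrib,
      Fintype.sum_prod_type]
    refine Finset.sum_congr rfl fun x _ => ?_
    rw [← mul_sub, ← Finset.sum_sub_distrib, Finset.mul_sum]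
    refine Finset.sum_congr rfl fun y _ => ?_
    rw [hDd, hz]
    ring
  -- multiplication by m
  have hmz : ∀ w : ℂ, w ∉ L.lattice → ((fR * n : RR) : ℂ) * w ∈ L.lattice → Oz L w →
      Oz L (m * w) ∧ bl * (m * w) - w ∈ L.lattice := by
    intro w hw1 hw2 hw3
    have h1 : bl * ((m : ℂ) * w) - w ∈ L.lattice := by
      rw [Ideal.mem_span_singleton'] at hm
      obtain ⟨c, hc⟩ := hm
      have h2 := hL.mul c _ hw2
      have h3 := congrArg (fun r : RR => (r : ℂ)) hc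
      push_cast at h3
      rw [bR_coe] at h3
      have e : (c : ℂ) * (((fR * n : RR) : ℂ) * w) = bl * ((m : ℂ) * w) - w := by
        push_cast
        linear_combination w * h3
      rwa [e] at h2
    refine ⟨⟨?_, ?_⟩, h1⟩
    · intro h2
      apply hw1
      have h3 := hL.mul bR _ h2
      rw [bR_coe] at h3
      have h4 := sub_mem h3 h1
      rwa [sub_sub_cancel] at h4
    · obtain ⟨N, hN, hNw⟩ := hw3.tor
      refine ⟨N, hN, ?_⟩
      have := hL.mul m _ hNw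
      have e : (N : ℂ) * (m * w) = m * (N * w) := by ring
      rwa [e]
  have hpt : ∀ p : (RR ⧸ sp n) × (RR ⧸ sp fR), e7 p.2.out ≠ 0 → Oz L (z p) ∧
      ((fR * n : RR) : ℂ) * z p ∈ L.lattice := by
    intro p hp
    rw [hz]
    exact pt hL hgo (fun h => hp (e7_eq_zero.2 h))
  have hDv : ∀ p : (RR ⧸ sp n) × (RR ⧸ sp fR), e7 p.2.out ≠ 0 → v (D (z p)) ≤ v 4 := by
    intro p hp
    obtain ⟨h1, h2⟩ := hpt p hp
    obtain ⟨h3, h4⟩ := hmz _ h1.ne h2 h1
    have h5 := hCK L Ω q hD Γ v hv _ k h3 hk hk2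
    rw [Mk_per hD k h1.ne h4] at h5
    rw [hDd]
    exact h5
  have h4ne : v 4 ≠ 0 := (Valuation.ne_zero_iff v).2 (by norm_num)
  have h2lt := v_two_lt hv
  -- the set of the points
  obtain ⟨s, hs⟩ : ∃ s : Finset ((RR ⧸ sp n) × (RR ⧸ sp fR)),
    s = Finset.univ.filter fun p => e7 p.2.out ≠ 0 := ⟨_, rfl⟩
  have e2 : ∑ p : (RR ⧸ sp n) × (RR ⧸ sp fR), φ p.1.out * (e7 p.2.out * D (z p)) =
      4 * ∑ p ∈ s, φ p.1.out * (e7 p.2.out * D (z p)) / 4 := by
    rw [Finset.mul_sum, hs, Finset.sum_filter]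
    refine Finset.sum_congr rfl fun p _ => ?_
    split_ifs with h
    · ring
    · rw [not_not] at h
      rw [h]
      ring
  have hout1 : ∀ x : RR ⧸ sp n, (-x).out - -x.out ∈ sp n := by
    intro x
    rw [← Ideal.Quotient.mk_eq_mk_iff_sub_mem, Ideal.Quotient.mk_out, map_neg,
      Ideal.Quotient.mk_out]
  have hout2 : ∀ x : RR ⧸ sp fR, (-x).out - -x.out ∈ sp fR := by
    intro x
    rw [← Ideal.Quotient.mk_eq_mk_iff_sub_mem, Ideal.Quotient.mk_out, map_neg,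
      Ideal.Quotient.mk_out]
  have he7 : ∀ y : RR ⧸ sp fR, e7 (-y).out = -e7 y.out := by
    intro y
    rw [e7_per (hout2 y), e7_neg]
  have hzn : ∀ p, z (-p) - -z p ∈ L.lattice := by
    intro p
    have hf0 : (fR : ℂ) ≠ 0 := by
      intro h
      exact Pool.Agent.Y698.fR_ne (Subtype.ext (by rw [h]; rfl))
    have hn0 : (n : ℂ) ≠ 0 := by
      intro h
      exact hgo.gd.ne (Subtype.ext (by rw [h]; rfl))
    obtain ⟨a, ha⟩ := Ideal.mem_span_singleton'.1 (hout1 p.1)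
    obtain ⟨b, hb⟩ := Ideal.mem_span_singleton'.1 (hout2 p.2)
    have ha' := congrArg (fun r : RR => (r : ℂ)) ha
    have hb' := congrArg (fun r : RR => (r : ℂ)) hb
    push_cast at ha' hb'
    have e : z (-p) - -z p = Ω * ((a + b : RR) : ℂ) := by
      rw [hz]
      show Ω * ((-p.2).out : ℂ) / fR + Ω * ((-p.1).out : ℂ) / n -
        -(Ω * (p.2.out : ℂ) / fR + Ω * (p.1.out : ℂ) / n) = _
      push_cast
      have h1 : (((-p.1).out : RR) : ℂ) = a * n - p.1.out := by linear_combination -ha'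
      have h2 : (((-p.2).out : RR) : ℂ) = b * fR - p.2.out := by linear_combination -hb'
      rw [h1, h2]
      field_simp
      ring
    rw [e]
    exact hL.mem_mul _
  have hDn : ∀ p : (RR ⧸ sp n) × (RR ⧸ sp fR), e7 p.2.out ≠ 0 → D (z (-p)) = -D (z p) := by
    intro p hp
    obtain ⟨h1, h2⟩ := hpt p hp
    obtain ⟨h3, -⟩ := hmz _ h1.ne h2 h1
    have hneg : -z p ∉ L.lattice := fun h => h1.ne (by simpa using neg_mem h)
    have hnO : Oz L (-(m * z p)) := by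
      refine ⟨fun h => h3.ne (by simpa using neg_mem h), ?_⟩
      obtain ⟨N, hN, hNw⟩ := h3.tor
      exact ⟨N, hN, by rw [mul_neg]; exact neg_mem hNw⟩
    have hmn : (m : ℂ) * z (-p) - -(m * z p) ∈ L.lattice := by
      have := hL.mul m _ (hzn p)
      have e : (m : ℂ) * (z (-p) - -z p) = m * z (-p) - -(m * z p) := by ring
      rwa [e] at this
    rw [hDd]
    show Mk L q k (z (-p)) - N1 L q (m * z (-p)) = -(Mk L q k (z p) - N1 L q (m * z p))
    rw [Mk_per hD k hneg (hzn p), Mk_neg hPAR L q k h1.ne, N1_per hD hnO hmn, N1_neg hPAR hL h3]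
    ring
  have key : v (∑ p ∈ s, φ p.1.out * (e7 p.2.out * D (z p)) / 4) ≤ v 2 := by
    refine Pool.Agent.Y698.v_sum_pair' s ?_ ?_ _ ?_ ?_
    · intro p hp
      rw [hs, Finset.mem_filter] at hp ⊢
      refine ⟨Finset.mem_univ _, ?_⟩
      show e7 (-p.2).out ≠ 0
      rw [he7]
      exact neg_ne_zero.2 hp.2
    · intro p hp hpp
      rw [hs, Finset.mem_filter] at hp
      apply hp.2
      have h1 : -p.2 = p.2 := congrArg Prod.snd hpp
      have h2 := he7 p.2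
      rw [h1] at h2
      linear_combination (1 / 2 : ℂ) * h2
    · intro p hp
      rw [hs, Finset.mem_filter] at hp
      show φ (-p.1).out * (e7 (-p.2).out * D (z (-p))) / 4 = _
      rw [hφp _ _ (hout1 p.1), hφe', he7, hDn p hp.2]
      ring
    · intro p hp
      rw [hs, Finset.mem_filter] at hp
      have h1 : v (e7 p.2.out) ≤ 1 := by
        have h2 : e7 p.2.out ^ 2 = 1 :=
          Pool.Agent.Y698.e7_sq (fun h => hp.2 (e7_eq_zero.2 h))
        rcases sq_eq_one_iff.1 h2 with h3 | h3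
        · rw [h3, map_one]
        · rw [h3, Valuation.map_neg, map_one]
      have h2 := hDv p hp.2
      rw [map_div₀, map_mul, map_mul]
      rw [div_le_one₀ (zero_lt_iff.2 h4ne)]
      calc v (φ p.1.out) * (v (e7 p.2.out) * v (D (z p))) ≤ 1 * (1 * v 4) := by
            gcongr
            exact hφ1' _
        _ = v 4 := by rw [one_mul, one_mul]
  rw [e1, e2, map_mul]
  calc v 4 * v (∑ p ∈ s, φ p.1.out * (e7 p.2.out * D (z p)) / 4) ≤ v 4 * v 2 := by gcongr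
    _ < v 4 * 1 := mul_lt_mul_of_pos_left h2lt (zero_lt_iff.2 h4ne)
    _ = v 4 := mul_one _

end Pool.Agent.Q111.BKL.J
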