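import Pool.Agent.Q274.BKL.Stm

/-!
# Parity of the numbers of Eisenstein and Kronecker
-/

set_option autoImplicit false
set_option linter.unusedVariables false

open Filter
open scoped Topology PeriodPair

namespace Pool.Agent.Q111.BKL.P

open H667R3
open Pool.Agent.TH936.CW
open Pool.Agent.Q274.BKL

/-- the involution -/
noncomputable def ph : PP →ₐ[ℂ] PP :=
  MvPolynomial.aeval ![-MvPolynomial.X 0, MvPolynomial.X 1, -MvPolynomial.X 2]

lemma ph_C (a : ℂ) : ph (MvPolynomial.C a) = MvPolynomial.C a := by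
  unfold ph
  rw [MvPolynomial.aeval_C]
  rfl

lemma ph_X0 : ph (MvPolynomial.X 0) = -MvPolynomial.X 0 := by
  unfold ph
  rw [MvPolynomial.aeval_X]
  rfl

lemma ph_X1 : ph (MvPolynomial.X 1) = MvPolynomial.X 1 := by
  unfold ph
  rw [MvPolynomial.aeval_X]
  rfl

lemma ph_X2 : ph (MvPolynomial.X 2) = -MvPolynomial.X 2 := by
  unfold ph
  rw [MvPolynomial.aeval_X]
  rfl

lemma Dv_ph (p g : ℂ) (P : PP) : Dv p g (ph P) = -ph (Dv p g P) := by
  induction P using MvPolynomial.induction_on with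
  | C a => simp only [ph_C, Dv_C, map_zero, neg_zero]
  | add P Q hP hQ => simp only [map_add, hP, hQ, neg_add]
  | mul_X P i hP =>
    have hX : Dv p g (ph (MvPolynomial.X i)) = -ph (Dv p g (MvPolynomial.X i)) := by
      fin_cases i
      · show Dv p g (ph (MvPolynomial.X 0)) = -ph (Dv p g (MvPolynomial.X 0))
        rw [ph_X0, Dv_X0, map_neg, Dv_X0, map_sub, map_neg, ph_X1, ph_C]
      · show Dv p g (ph (MvPolynomial.X 1)) = -ph (Dv p g (MvPolynomial.X 1))
        rw [ph_X1, Dv_X1, ph_X2, neg_neg]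
      · show Dv p g (ph (MvPolynomial.X 2)) = -ph (Dv p g (MvPolynomial.X 2))
        rw [ph_X2, Dv_X2, map_neg, Dv_X2, map_sub, map_mul, map_pow, ph_X1, ph_C, ph_C]
    rw [map_mul, Derivation.leibniz, Derivation.leibniz, map_add, smul_eq_mul, smul_eq_mul,
      smul_eq_mul, smul_eq_mul, map_mul, map_mul, hX, hP]
    ring

lemma ph_Dv (p g : ℂ) (P : PP) : ph (Dv p g P) = -Dv p g (ph P) := by
  rw [Dv_ph, neg_neg]

lemma ph_Dvn (p g : ℂ) (P : PP) (n : ℕ) :
    ph ((Dv p g)^[n] P) = (-1) ^ n * (Dv p g)^[n] (ph P) := by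
  induction n with
  | zero => simp
  | succ n ih =>
    rw [Function.iterate_succ_apply', ph_Dv, ih, Function.iterate_succ_apply']
    have : Dv p g ((-1) ^ n * (Dv p g)^[n] (ph P)) = (-1) ^ n * Dv p g ((Dv p g)^[n] (ph P)) := by
      rcases neg_one_pow_eq_or PP n with h | h
      · rw [h, one_mul, one_mul]
      · rw [h, neg_one_mul, neg_one_mul, map_neg]
    rw [this, pow_succ]
    ring

lemma ph_Uu (p g : ℂ) (i : ℕ) : ph (Uu p g i) = (-1) ^ i * Uu p g i := by
  induction i with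
  | zero => simp [Uu]
  | succ i ih =>
    rw [Uu, map_add, map_mul, ph_X0, ih, ph_Dv, ih]
    have : Dv p g ((-1) ^ i * Uu p g i) = (-1) ^ i * Dv p g (Uu p g i) := by
      rcases neg_one_pow_eq_or PP i with h | h
      · rw [h, one_mul, one_mul]
      · rw [h, neg_one_mul, neg_one_mul, map_neg]
    rw [this, pow_succ]
    ring

variable (L : PeriodPair) (p q : ℂ)

lemma rh_odd (j : ℕ) : rh L p j = (-1) ^ j * rh L p j := by
  have h1 : (fun w => Mm L p (-w)) = Mm L p := by
    funext w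
    unfold Mm Tt
    rw [Pi'_neg, neg_sq]
  have h2 := iteratedDeriv_comp_neg (𝕜 := ℂ) j (Mm L p) 0
  rw [h1, neg_zero, smul_eq_mul] at h2
  exact h2

lemma ph_Aa (m : ℕ) : ph (Aa L p m) = (-1) ^ m * Aa L p m := by
  unfold Aa
  rw [map_sum, Finset.mul_sum]
  refine Finset.sum_congr rfl fun i hi => ?_
  rw [map_mul, ph_C, ph_Uu]
  have hi' : i ≤ m := by
    rw [Finset.mem_range] at hi
    omega
  have h1 := rh_odd L p (m - i)
  rcases Nat.even_or_odd (m - i) with h | h
  · have e : ((-1) ^ m : PP) = (-1) ^ i := by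
      have h3 : (m - i) + i = m := by omega
      calc ((-1) ^ m : PP) = (-1) ^ ((m - i) + i) := by rw [h3]
        _ = (-1) ^ i := by rw [pow_add, h.neg_one_pow, one_mul]
    rw [e]
    ring
  · rw [h.neg_one_pow] at h1
    have h2 : rh L p (m - i) = 0 := by linear_combination (1 / 2 : ℂ) * h1
    rw [h2, mul_zero, map_zero, zero_mul, zero_mul, mul_zero]

lemma ph_Pp (n : ℕ) : ph (Pp L p n) = -Pp L p n := by
  unfold Pp
  rw [map_mul, ph_C, ph_Dvn, ph_Aa]
  have : (Dv p L.g₂)^[n] ((-1) ^ (n + 1) * Aa L p (n + 1)) =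
      (-1) ^ (n + 1) * (Dv p L.g₂)^[n] (Aa L p (n + 1)) := by
    rcases neg_one_pow_eq_or PP (n + 1) with h | h
    · rw [h, one_mul, one_mul]
    · rw [h, neg_one_mul, neg_one_mul]
      exact Function.Semiconj.iterate_right (f := fun x : PP => -x)
        (fun x => (map_neg (Dv p L.g₂) x).symm) n |>.eq _ |>.symm
  rw [this]
  have h2 : ((-1) ^ n * (-1) ^ (n + 1) : PP) = -1 := by
    rw [← pow_add]
    exact Odd.neg_one_pow ⟨n, by ring⟩
  rw [← mul_assoc ((-1) ^ n : PP), h2]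
  ring

lemma ev_ph (a b c : ℂ) (P : PP) : ev a b c (ph P) = ev (-a) b (-c) P := by
  induction P using MvPolynomial.induction_on with
  | C x => simp only [ph_C, ev_C]
  | add P Q hP hQ => simp only [map_add, ev_add, hP, hQ]
  | mul_X P i hP =>
    rw [map_mul, ev_mul, ev_mul, hP]
    congr 1
    fin_cases i
    · show ev a b c (ph (MvPolynomial.X 0)) = ev (-a) b (-c) (MvPolynomial.X 0)
      rw [ph_X0, ev_X0]
      simp [ev]
    · show ev a b c (ph (MvPolynomial.X 1)) = ev (-a) b (-c) (MvPolynomial.X 1)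
      rw [ph_X1, ev_X1, ev_X1]
    · show ev a b c (ph (MvPolynomial.X 2)) = ev (-a) b (-c) (MvPolynomial.X 2)
      rw [ph_X2, ev_X2]
      simp [ev]

theorem t_PAR : S_PAR := by
  intro L p q n z hz
  unfold ek evz
  have h1 : Xx L p q ((starRingEnd ℂ) (-z)) (-z) = -Xx L p q ((starRingEnd ℂ) z) z := by
    unfold Xx
    rw [zeta_neg, map_neg]
    ring
  rw [h1, L.weierstrassP_neg, L.derivWeierstrassP_neg, ← ev_ph, ph_Pp]
  simp [ev]

end Pool.Agent.Q111.BKL.P
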