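import Pool.Agent.Q274.BKL.Stm

/-!
# The quasi-periods
-/

set_option autoImplicit false
set_option linter.unusedVariables false

open Filter
open scoped Topology PeriodPair

namespace Pool.Agent.Q111.BKL.PQ

open H667R3
open Pool.Agent.Q274.BKL
open Pool.Agent.Y698 (LD RR al bl tA tB al_sq aR bR aR_coe bR_coe)

lemma conj_al : (starRingEnd ℂ) al = bl := by
  apply Complex.ext
  · rw [Complex.conj_re]
    unfold bl
    rw [Complex.sub_re, Complex.one_re, Pool.Agent.Y698.al_re]
    norm_num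
  · rw [Complex.conj_im]
    unfold bl
    rw [Complex.sub_im, Complex.one_im, zero_sub]

lemma conj_bl : (starRingEnd ℂ) bl = al := by
  rw [← conj_al, Complex.conj_conj]

theorem t_PQ : S_PQ := by
  intro h1 L Ω h
  obtain ⟨p, q, hpq⟩ := Pool.Agent.TH936.CW.exists_pq L
  refine ⟨q, h, ?_⟩
  have hL := h.lat
  have hz0 : tA Ω ∉ L.lattice := Pool.Agent.Y698.tA_notMem hL
  have hΩ : Ω ∈ L.lattice := (hL.mem _).2 ⟨1, by push_cast; ring⟩
  have hbΩ : bl * Ω ∈ L.lattice := by
    have := hL.mul bR _ hΩ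
    rwa [bR_coe] at this
  have hb : bl * tA Ω ∉ L.lattice := by
    intro h2
    apply hz0
    have h3 := add_mem (Pool.Agent.Y698.tA_mem hL) h2
    have e : al * tA Ω + bl * tA Ω = tA Ω := by
      unfold bl
      ring
    rwa [e] at h3
  have hb' : bl * (tA Ω + Ω) ∉ L.lattice := by
    intro h2
    apply hb
    have h3 := sub_mem h2 hbΩ
    have e : bl * (tA Ω + Ω) - bl * Ω = bl * tA Ω := by ring
    rwa [e] at h3
  have e1 := (h1 L Ω h).1 _ hb
  have e2 := (h1 L Ω h).1 _ hb'
  rw [mul_add, zeta_add_coe L hb hbΩ, zeta_add_coe L hz0 hΩ,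
    Pool.Agent.W245.EB.wp_add_lattice L hΩ, Pool.Agent.W245.EB.wp'_add_lattice L hΩ,
    hpq _ hbΩ, hpq _ hΩ, map_mul, conj_bl] at e2
  have hq : bl * (q * (al * (starRingEnd ℂ) Ω)) = 2 * (q * (starRingEnd ℂ) Ω) := by
    rw [← Pool.Agent.Y698.al_mul_bl]
    ring
  have e3 : bl * (p * (bl * Ω)) = 2 * (p * Ω) - (3 + al) / 4 * Ω := by
    linear_combination e2 - e1 - hq
  have e4 : (p - 1 / 4) * (3 + al) * Ω = 0 := by
    have e5 : bl ^ 2 = -1 - al := by
      unfold bl
      linear_combination al_sq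
    linear_combination p * Ω * e5 - e3
  have h3 : (3 : ℂ) + al ≠ 0 := by
    intro h4
    have := congrArg Complex.re h4
    rw [Complex.add_re, Pool.Agent.Y698.al_re] at this
    norm_num at this
  have h4 : p - 1 / 4 = 0 := by
    rcases mul_eq_zero.1 e4 with h5 | h5
    · exact (mul_eq_zero.1 h5).resolve_right h3
    · exact absurd h5 hL.ne
  have h5 : p = 1 / 4 := by linear_combination h4
  intro l hl
  rw [hpq l hl, h5]

end Pool.Agent.Q111.BKL.PQ
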